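import Pool.Agent.H74.OLP.Targets2

/-!
# olp_modules, row CFO: cycles of length four have chords
-/

set_option autoImplicit false
open Finset Pool.Agent.H74.OLP
open scoped Classical

namespace Pool.Agent.H89.OLP

section

variable {V E F : Type} {M : CMap V E F}

theorem cfo_on {e : E} {u v : F} (he : s(M.l e, M.r e) = s(u, v)) : M.OnF e u ∧ M.OnF e v := by
  rcases Sym2.eq_iff.1 he with ⟨h1, h2⟩ | ⟨h1, h2⟩
  · exact ⟨Or.inl h1, Or.inr h2⟩
  · exact ⟨Or.inr h2, Or.inl h1⟩

theorem cfo_pair {e : E} {u v P Q x y : F} (huv : u ≠ v) (he : s(M.l e, M.r e) = s(u, v))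
    (hf : ∀ f, M.OnF e f ↔ (f = P ∨ f = Q)) (hP : P ≠ x ∧ P ≠ y) (hQ : Q = x ∨ Q = y) :
    ((u = x ∨ u = y) ∧ ¬ (v = x ∨ v = y)) ∨ (¬ (u = x ∨ u = y) ∧ (v = x ∨ v = y)) := by
  obtain ⟨hu, hv⟩ := cfo_on he
  have hP' : ¬ (P = x ∨ P = y) := fun h => h.elim hP.1 hP.2
  rcases (hf u).1 hu with h1 | h1 <;> rcases (hf v).1 hv with h2 | h2
  · exact absurd (h1.trans h2.symm) huv
  · rw [h1, h2]
    exact Or.inr ⟨hP', hQ⟩
  · rw [h1, h2]
    exact Or.inl ⟨hQ, hP'⟩
  · exact absurd (h1.trans h2.symm) huv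

theorem cfo_ne {e e' : E} {u v u' v' : F} (he : s(M.l e, M.r e) = s(u, v))
    (he' : s(M.l e', M.r e') = s(u', v')) (h : u ≠ u' ∨ v ≠ v') (h' : u ≠ v' ∨ v ≠ u') :
    e ≠ e' := by
  intro h0
  rw [h0, he'] at he
  rcases Sym2.eq_iff.1 he with ⟨h1, h2⟩ | ⟨h1, h2⟩
  · exact h.elim (fun h3 => h3 h1.symm) fun h3 => h3 h2.symm
  · exact h'.elim (fun h3 => h3 h2.symm) fun h3 => h3 h1.symm

end

theorem pf_CFO (h1 : T_CLS) (h2 : T_NBE) (_h3 : T_SFF) : T_CFO := by
  intro V E F _ _ _ M hM hPar hFive w hw hRep a b c d hab hbc hcd hda hac hbd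
  obtain ⟨nab, e1, he1⟩ := hab
  obtain ⟨nbc, e2, he2⟩ := hbc
  obtain ⟨ncd, e3, he3⟩ := hcd
  obtain ⟨nda, e4, he4⟩ := hda
  have n12 : e1 ≠ e2 := cfo_ne he1 he2 (Or.inl nab) (Or.inl hac)
  have n13 : e1 ≠ e3 := cfo_ne he1 he3 (Or.inl hac) (Or.inl nda.symm)
  have n14 : e1 ≠ e4 := cfo_ne he1 he4 (Or.inl nda.symm) (Or.inr hbd)
  have n23 : e2 ≠ e3 := cfo_ne he2 he3 (Or.inl nbc) (Or.inl hbd)
  have n24 : e2 ≠ e4 := cfo_ne he2 he4 (Or.inl hbd) (Or.inl nab.symm)
  have n34 : e3 ≠ e4 := cfo_ne he3 he4 (Or.inl ncd) (Or.inl hac.symm)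
  obtain ⟨g, g0, g1, g2, g3, g4⟩ : ∃ g : ℕ → F, g 0 = a ∧ g 1 = b ∧ g 2 = c ∧ g 3 = d ∧
      g 4 = a :=
    ⟨fun n => if n = 1 then b else if n = 2 then c else if n = 3 then d else a, rfl, rfl, rfl,
      rfl, rfl⟩
  obtain ⟨e, f0, f1, f2, f3⟩ : ∃ e : ℕ → E, e 0 = e1 ∧ e 1 = e2 ∧ e 2 = e3 ∧ e 3 = e4 :=
    ⟨fun n => if n = 0 then e1 else if n = 1 then e2 else if n = 2 then e3 else e4, rfl, rfl,
      rfl, rfl⟩
  obtain ⟨W, hW⟩ := hRep 4 (by norm_num) (by omega) g e (by
    intro i hi j hj hij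
    interval_cases i <;> interval_cases j <;> simp only [g0, g1, g2, g3] at hij <;>
      first
      | rfl
      | exact absurd hij nab
      | exact absurd hij nab.symm
      | exact absurd hij nbc
      | exact absurd hij nbc.symm
      | exact absurd hij ncd
      | exact absurd hij ncd.symm
      | exact absurd hij nda
      | exact absurd hij nda.symm
      | exact absurd hij hac
      | exact absurd hij hac.symm
      | exact absurd hij hbd
      | exact absurd hij hbd.symm) (by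
    intro i hi j hj hij
    interval_cases i <;> interval_cases j <;> simp only [f0, f1, f2, f3] at hij <;>
      first
      | rfl
      | exact absurd hij n12
      | exact absurd hij n12.symm
      | exact absurd hij n13
      | exact absurd hij n13.symm
      | exact absurd hij n14
      | exact absurd hij n14.symm
      | exact absurd hij n23
      | exact absurd hij n23.symm
      | exact absurd hij n24
      | exact absurd hij n24.symm
      | exact absurd hij n34
      | exact absurd hij n34.symm) (by rw [g4, g0]) (by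
    intro i hi
    interval_cases i
    · rw [f0, g0, g1]
      exact cfo_on he1
    · rw [f1, g1, g2]
      exact cfo_on he2
    · rw [f2, g2, g3]
      exact cfo_on he3
    · rw [f3, g3, g4]
      exact cfo_on he4)
  have hW' : ∀ e', e' ∈ M.cut W ↔ (e' = e1 ∨ e' = e2 ∨ e' = e3 ∨ e' = e4) := by
    intro e'
    rw [hW]
    constructor
    · rintro ⟨i, hi, rfl⟩
      interval_cases i
      · exact Or.inl f0
      · exact Or.inr (Or.inl f1)
      · exact Or.inr (Or.inr (Or.inl f2))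
      · exact Or.inr (Or.inr (Or.inr f3))
    · rintro (rfl | rfl | rfl | rfl)
      · exact ⟨0, by norm_num, f0⟩
      · exact ⟨1, by norm_num, f1⟩
      · exact ⟨2, by norm_num, f2⟩
      · exact ⟨3, by norm_num, f3⟩
  have hcut : M.cut W = {e1, e2, e3, e4} := by
    ext e'
    rw [hW']
    simp only [Finset.mem_insert, Finset.mem_singleton]
  have hcard : (M.cut W).card = 4 := by
    rw [hcut, Finset.card_insert_of_notMem, Finset.card_insert_of_notMem,
      Finset.card_insert_of_notMem, Finset.card_singleton]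
    · simp only [Finset.mem_singleton]
      exact n34
    · simp only [Finset.mem_insert, Finset.mem_singleton]
      exact fun h => h.elim n23 n24
    · simp only [Finset.mem_insert, Finset.mem_singleton]
      exact fun h => h.elim n12 fun h => h.elim n13 n14
  rcases h1 V E F M hM hPar hFive W hcard.le with h | ⟨v, hv⟩ | ⟨e₀, he₀⟩
  · rw [h, Finset.card_empty] at hcard
    omega
  · exfalso
    obtain ⟨a', b', c', -, -, -, -, -, -, -, -, -, hon, -⟩ := hM.tri v
    have hsub : M.cut W ⊆ {a', b', c'} := by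
      intro e' he'
      simp only [Finset.mem_insert, Finset.mem_singleton]
      exact (hon e').1 ((hv e').1 he')
    have := (Finset.card_le_card hsub).trans Finset.card_le_three
    omega
  · obtain ⟨a', b', c', d', p, q, -, -, -, -, -, -, hmem, hpl, hpr, hql, hqr, fa, fb, fc, fd⟩ :=
      h2 V E F M hM hPar e₀
    have key : ∀ e' ∈ M.cut W, ∀ u v, u ≠ v → s(M.l e', M.r e') = s(u, v) →
        ((u = M.l e₀ ∨ u = M.r e₀) ∧ ¬ (v = M.l e₀ ∨ v = M.r e₀)) ∨
        (¬ (u = M.l e₀ ∨ u = M.r e₀) ∧ (v = M.l e₀ ∨ v = M.r e₀)) := by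
      intro e' he' u v huv hs
      rcases (hmem e').1 ((he₀ e').1 he') with rfl | rfl | rfl | rfl
      · exact cfo_pair huv hs fa ⟨hpl, hpr⟩ (Or.inl rfl)
      · exact cfo_pair huv hs fb ⟨hpl, hpr⟩ (Or.inr rfl)
      · exact cfo_pair huv hs fc ⟨hql, hqr⟩ (Or.inl rfl)
      · exact cfo_pair huv hs fd ⟨hql, hqr⟩ (Or.inr rfl)
    have k1 := key e1 ((hW' e1).2 (Or.inl rfl)) a b nab he1
    have k2 := key e2 ((hW' e2).2 (Or.inr (Or.inl rfl))) b c nbc he2
    have k3 := key e3 ((hW' e3).2 (Or.inr (Or.inr (Or.inl rfl)))) c d ncd he3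
    have fin : ∀ u v, u ≠ v → (u = M.l e₀ ∨ u = M.r e₀) → (v = M.l e₀ ∨ v = M.r e₀) →
        M.T.Adj u v := by
      intro u v huv hu hv
      refine ⟨huv, e₀, ?_⟩
      rcases hu with hu | hu <;> rcases hv with hv | hv
      · exact absurd (hu.trans hv.symm) huv
      · rw [hu, hv]
      · rw [hu, hv, Sym2.eq_swap]
      · exact absurd (hu.trans hv.symm) huv
    rcases k1 with ⟨ka, kb⟩ | ⟨ka, kb⟩
    · rcases k2 with ⟨kb', -⟩ | ⟨-, kc⟩
      · exact absurd kb' kb
      · exact Or.inl (fin a c hac ka kc)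
    · rcases k2 with ⟨-, kc⟩ | ⟨kb', -⟩
      · rcases k3 with ⟨kc', -⟩ | ⟨-, kd⟩
        · exact absurd kc' kc
        · exact Or.inr (fin b d hbd kb kd)
      · exact absurd kb kb'

end Pool.Agent.H89.OLP
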